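import Mathlib

/-!
# Locating colourings

The locating chromatic number of a graph; basic facts on the distances in `K_m □ H`.
-/

set_option autoImplicit false

namespace Pool.Agent.Q124.LC

open SimpleGraph

/-- the distance of the vertex `v` from the set `S` of vertices -/
noncomputable def dset {V : Type} (G : SimpleGraph V) (v : V) (S : Set V) : ℕ :=
  sInf {d : ℕ | ∃ s ∈ S, G.dist v s = d}

/-- `c` is a locating colouring of `G` with `k` colours: a proper colouring with nonempty colour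
classes such that distinct vertices have distinct colour codes
`(d(v, V_1), ..., d(v, V_k))` -/
def IsLocating {V : Type} (G : SimpleGraph V) {k : ℕ} (c : V → Fin k) : Prop :=
  (∀ u v, G.Adj u v → c u ≠ c v) ∧ Function.Surjective c ∧
    ∀ u v, (∀ i : Fin k, dset G u {w | c w = i} = dset G v {w | c w = i}) → u = v

/-- the locating chromatic number: the least number of colours of a locating colouring -/
noncomputable def locChrom {V : Type} (G : SimpleGraph V) : ℕ :=
  sInf {k : ℕ | ∃ c : V → Fin k, IsLocating G c}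

section dset

variable {V : Type} {G : SimpleGraph V}

lemma dset_le {v s : V} {S : Set V} (hs : s ∈ S) : dset G v S ≤ G.dist v s :=
  Nat.sInf_le ⟨s, hs, rfl⟩

lemma dset_exists {v : V} {S : Set V} (hS : S.Nonempty) : ∃ s ∈ S, G.dist v s = dset G v S := by
  have h : {d : ℕ | ∃ s ∈ S, G.dist v s = d}.Nonempty := by
    obtain ⟨s, hs⟩ := hS
    exact ⟨_, s, hs, rfl⟩
  exact Nat.sInf_mem h

lemma dset_zero {v : V} {S : Set V} (h : v ∈ S) : dset G v S = 0 := by
  have := dset_le (G := G) (v := v) h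
  rw [SimpleGraph.dist_self] at this
  omega

lemma mem_of_dset_zero (hG : G.Connected) {v : V} {S : Set V} (hS : S.Nonempty)
    (h : dset G v S = 0) : v ∈ S := by
  obtain ⟨s, hs, hd⟩ := dset_exists (G := G) (v := v) hS
  rw [h, hG.dist_eq_zero_iff] at hd
  rwa [hd]

lemma dset_one (hG : G.Connected) {v s : V} {S : Set V} (h : v ∉ S) (hs : s ∈ S)
    (ha : G.Adj v s) : dset G v S = 1 := by
  have h1 := dset_le (G := G) (v := v) hs
  rw [SimpleGraph.dist_eq_one_iff_adj.2 ha] at h1
  have h2 : dset G v S ≠ 0 := fun h0 => h (mem_of_dset_zero hG ⟨s, hs⟩ h0)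
  omega

lemma adj_of_dset_one {v : V} {S : Set V} (hS : S.Nonempty) (h : dset G v S = 1) :
    ∃ s ∈ S, G.Adj v s := by
  obtain ⟨s, hs, hd⟩ := dset_exists (G := G) (v := v) hS
  rw [h] at hd
  exact ⟨s, hs, SimpleGraph.dist_eq_one_iff_adj.1 hd⟩

lemma dset_two (hG : G.Connected) {v s : V} {S : Set V} (hv : v ∉ S) (hn : ∀ w ∈ S, ¬ G.Adj v w)
    (hs : s ∈ S) (h2 : G.dist v s ≤ 2) : dset G v S = 2 := by
  have h1 := dset_le (G := G) (v := v) hs
  have h0 : dset G v S ≠ 0 := fun h0 => hv (mem_of_dset_zero hG ⟨s, hs⟩ h0)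
  have h3 : dset G v S ≠ 1 := fun h0 => by
    obtain ⟨w, hw, ha⟩ := adj_of_dset_one ⟨s, hs⟩ h0
    exact hn w hw ha
  omega

end dset

/-! ### The product `K_m □ H` -/

section prod

variable {m : ℕ} {B : Type} {H : SimpleGraph B}

/-- the product of the complete graph on `m` vertices with `H` -/
abbrev KP (m : ℕ) (H : SimpleGraph B) : SimpleGraph (Fin m × B) := (⊤ : SimpleGraph (Fin m)) □ H

lemma kp_adj {x y : Fin m × B} :
    (KP m H).Adj x y ↔ (x.1 ≠ y.1 ∧ x.2 = y.2) ∨ (H.Adj x.2 y.2 ∧ x.1 = y.1) := by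
  rw [SimpleGraph.boxProd_adj, SimpleGraph.top_adj]

lemma kp_connected (hm : 0 < m) (hH : H.Connected) : (KP m H).Connected := by
  haveI : Nonempty (Fin m) := ⟨⟨0, hm⟩⟩
  exact SimpleGraph.Connected.boxProd (SimpleGraph.connected_top) hH

lemma kp_dist (hm : 0 < m) (hH : H.Connected) (x y : Fin m × B) :
    (KP m H).dist x y = (if x.1 = y.1 then 0 else 1) + H.dist x.2 y.2 := by
  haveI : Nonempty (Fin m) := ⟨⟨0, hm⟩⟩
  have hT : (⊤ : SimpleGraph (Fin m)).Connected := SimpleGraph.connected_top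
  have h := SimpleGraph.edist_boxProd (G := (⊤ : SimpleGraph (Fin m))) (H := H) x y
  have e1 : (⊤ : SimpleGraph (Fin m)).dist x.1 y.1 = if x.1 = y.1 then 0 else 1 := by
    split_ifs with h
    · rw [h, SimpleGraph.dist_self]
    · exact SimpleGraph.dist_eq_one_iff_adj.2 ((SimpleGraph.top_adj _ _).2 h)
  have h1 : ((KP m H).dist x y : ℕ∞) = (KP m H).edist x y :=
    ((kp_connected hm hH).preconnected x y).coe_dist_eq_edist
  have h2 : ((⊤ : SimpleGraph (Fin m)).dist x.1 y.1 : ℕ∞) = (⊤ : SimpleGraph (Fin m)).edist x.1 y.1 :=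
    (hT.preconnected x.1 y.1).coe_dist_eq_edist
  have h3 : (H.dist x.2 y.2 : ℕ∞) = H.edist x.2 y.2 :=
    (hH.preconnected x.2 y.2).coe_dist_eq_edist
  rw [← h1, ← h2, ← h3, e1] at h
  exact_mod_cast h

end prod

end Pool.Agent.Q124.LC
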