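import Mathlib

/-!
# Filling one layer
-/

set_option autoImplicit false

namespace Pool.Agent.Q124.LC

open Finset

theorem fill {m : ℕ} (hm : 8 ≤ m) (a : Fin 3 → Fin m) (ha : Function.Injective a)
    (b : Fin 3 → Fin (m + 1)) (hb : Function.Injective b) (b0 : Fin (m + 1)) (hb0 : ∀ i, b i ≠ b0)
    (F1 F2 : Fin m → Fin (m + 1)) (h1 : Function.Injective F1) (h2 : Function.Injective F2) :
    ∃ x : Fin m → Fin (m + 1), Function.Injective x ∧ (∀ g, x g ≠ b0) ∧ (∀ i, x (a i) = b i) ∧
      ∀ g, (∀ i, g ≠ a i) → x g ≠ F1 g ∧ x g ≠ F2 g := by
  classical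
  let t : Fin m → Finset (Fin (m + 1)) := fun g => univ.filter (fun c => c ≠ b0 ∧
    (∀ i, g = a i → c = b i) ∧ ((∀ i, g ≠ a i) → (∀ i, c ≠ b i) ∧ c ≠ F1 g ∧ c ≠ F2 g))
  have hall : ∀ s : Finset (Fin m), s.card ≤ (s.biUnion t).card := by
    intro s
    set s1 := s.filter (fun g => ∃ i, g = a i) with hs1
    set s2 := s.filter (fun g => ¬ ∃ i, g = a i) with hs2
    have hs : s.card = s1.card + s2.card := (Finset.card_filter_add_card_filter_not _).symm
    -- the colours at the prescribed columns
    set I := univ.filter (fun i : Fin 3 => a i ∈ s) with hI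
    have hI1 : s1.card ≤ I.card := by
      have : s1 ⊆ I.image a := by
        intro g hg
        rw [hs1, mem_filter] at hg
        obtain ⟨h, i, rfl⟩ := hg
        rw [mem_image]
        exact ⟨i, by rw [hI, mem_filter]; exact ⟨mem_univ _, h⟩, rfl⟩
      exact (card_le_card this).trans card_image_le
    have hB : (I.image b).card = I.card := card_image_of_injective _ hb
    have hBsub : I.image b ⊆ s.biUnion t := by
      intro c hc
      rw [mem_image] at hc
      obtain ⟨i, hi, rfl⟩ := hc
      rw [hI, mem_filter] at hi
      rw [mem_biUnion]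
      refine ⟨a i, hi.2, ?_⟩
      simp only [t, mem_filter, mem_univ, true_and]
      refine ⟨hb0 i, fun k hk => ?_, fun h => absurd rfl (h i)⟩
      rw [ha hk]
    have hUsub : s2.biUnion t ⊆ s.biUnion t := biUnion_subset_biUnion_of_subset_left _ (filter_subset _ _)
    have hdis : Disjoint (I.image b) (s2.biUnion t) := by
      rw [Finset.disjoint_left]
      intro c hc hc2
      rw [mem_image] at hc
      obtain ⟨i, hi, rfl⟩ := hc
      rw [mem_biUnion] at hc2
      obtain ⟨g, hg, hgc⟩ := hc2
      rw [hs2, mem_filter] at hg
      simp only [t, mem_filter, mem_univ, true_and] at hgc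
      exact (hgc.2.2 (fun k hk => hg.2 ⟨k, hk⟩)).1 i rfl
    have hsum : (I.image b).card + (s2.biUnion t).card ≤ (s.biUnion t).card := by
      rw [← card_union_of_disjoint hdis]
      exact card_le_card (union_subset hBsub hUsub)
    -- the other columns
    set K : Finset (Fin (m + 1)) := univ.filter (fun c => c ≠ b0 ∧ ∀ i, c ≠ b i) with hK
    have hKc : m ≤ K.card + 3 := by
      have h3 : (univ : Finset (Fin (m + 1))) ⊆ K ∪ insert b0 (univ.image b) := by
        intro c _
        rw [mem_union]
        by_cases hc : c = b0
        · right; rw [hc]; exact mem_insert_self _ _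
        · by_cases hc2 : ∃ i, c = b i
          · right
            obtain ⟨i, rfl⟩ := hc2
            exact mem_insert_of_mem (mem_image_of_mem _ (mem_univ _))
          · left
            rw [hK, mem_filter]
            exact ⟨mem_univ _, hc, fun i hi => hc2 ⟨i, hi⟩⟩
      have h4 := card_le_card h3
      rw [card_univ, Fintype.card_fin] at h4
      have h5 := card_union_le K (insert b0 (univ.image b))
      have h6 := card_insert_le b0 (univ.image b)
      have h7 : (univ.image b).card ≤ 3 := card_image_le.trans (by simp)
      omega
    have hs2c : s2.card + 3 ≤ m := by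
      have h3 : s2 ⊆ univ \ (univ.image a) := by
        intro g hg
        rw [hs2, mem_filter] at hg
        rw [mem_sdiff]
        refine ⟨mem_univ _, fun h => hg.2 ?_⟩
        rw [mem_image] at h
        obtain ⟨i, _, hi⟩ := h
        exact ⟨i, hi.symm⟩
      have h4 := card_le_card h3
      have h5 : (univ.image a).card = 3 := by
        rw [card_image_of_injective _ ha]; simp
      rw [card_sdiff_of_subset (subset_univ _), card_univ, Fintype.card_fin, h5] at h4
      omega
    have hkey : s2.card ≤ (s2.biUnion t).card := by
      rcases Nat.lt_or_ge s2.card 3 with hlt | hge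
      · rcases s2.eq_empty_or_nonempty with he | ⟨g, hg⟩
        · rw [he]; simp
        · have hg2 : ∀ i, g ≠ a i := by
            intro i hi
            have := (mem_filter.1 (hs2 ▸ hg)).2
            exact this ⟨i, hi⟩
          have h3 : K \ {F1 g, F2 g} ⊆ s2.biUnion t := by
            intro c hc
            rw [mem_sdiff, hK, mem_filter] at hc
            rw [mem_biUnion]
            refine ⟨g, hg, ?_⟩
            simp only [t, mem_filter, mem_univ, true_and]
            refine ⟨hc.1.2.1, fun i hi => absurd hi (hg2 i), fun _ => ⟨hc.1.2.2, ?_, ?_⟩⟩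
            · intro h; exact hc.2 (by rw [h]; simp)
            · intro h; exact hc.2 (by rw [h]; simp)
          have h4 := card_le_card h3
          have h5 := le_card_sdiff ({F1 g, F2 g} : Finset (Fin (m + 1))) K
          have h6 : ({F1 g, F2 g} : Finset (Fin (m + 1))).card ≤ 2 := card_le_two
          omega
      · have h3 : K ⊆ s2.biUnion t := by
          intro c hc
          rw [hK, mem_filter] at hc
          by_contra hcon
          have h4 : s2 ⊆ univ.filter (fun g => F1 g = c) ∪ univ.filter (fun g => F2 g = c) := by
            intro g hg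
            by_contra hg3
            rw [mem_union, not_or, mem_filter, mem_filter] at hg3
            apply hcon
            rw [mem_biUnion]
            refine ⟨g, hg, ?_⟩
            have hg2 : ∀ i, g ≠ a i := by
              intro i hi
              have := (mem_filter.1 (hs2 ▸ hg)).2
              exact this ⟨i, hi⟩
            simp only [t, mem_filter, mem_univ, true_and]
            refine ⟨hc.2.1, fun i hi => absurd hi (hg2 i), fun _ => ⟨hc.2.2, ?_, ?_⟩⟩
            · intro h; exact hg3.1 ⟨mem_univ _, h.symm⟩
            · intro h; exact hg3.2 ⟨mem_univ _, h.symm⟩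
          have h5 := card_le_card h4
          have h6 := card_union_le (univ.filter (fun g => F1 g = c)) (univ.filter (fun g => F2 g = c))
          have h7 : (univ.filter (fun g => F1 g = c)).card ≤ 1 := by
            rw [card_le_one]
            intro x hx y hy
            rw [mem_filter] at hx hy
            exact h1 (hx.2.trans hy.2.symm)
          have h8 : (univ.filter (fun g => F2 g = c)).card ≤ 1 := by
            rw [card_le_one]
            intro x hx y hy
            rw [mem_filter] at hx hy
            exact h2 (hx.2.trans hy.2.symm)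
          omega
        have h4 := card_le_card h3
        omega
    omega
  obtain ⟨x, hx1, hx2⟩ := (Finset.all_card_le_biUnion_card_iff_exists_injective t).1 hall
  have hx3 : ∀ g, x g ≠ b0 ∧ (∀ i, g = a i → x g = b i) ∧
      ((∀ i, g ≠ a i) → (∀ i, x g ≠ b i) ∧ x g ≠ F1 g ∧ x g ≠ F2 g) := by
    intro g
    have := hx2 g
    simp only [t, mem_filter, mem_univ, true_and] at this
    exact this
  exact ⟨x, hx1, fun g => (hx3 g).1, fun i => (hx3 (a i)).2.1 i rfl, fun g hg => ((hx3 g).2.2 hg).2⟩

end Pool.Agent.Q124.LC
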