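import Pool.Agent.Q124.LC.Defs

/-!
# Lower bounds
-/

set_option autoImplicit false

namespace Pool.Agent.Q124.LC

open SimpleGraph

section lower

variable {m : ℕ} {B : Type} {H : SimpleGraph B}

lemma layer_inj {k : ℕ} {c : Fin m × B → Fin k} (hc : ∀ u v, (KP m H).Adj u v → c u ≠ c v) (b : B) :
    Function.Injective fun g => c (g, b) := by
  intro g g' h
  by_contra hne
  exact hc (g, b) (g', b) (kp_adj.2 (Or.inl ⟨hne, rfl⟩)) h

theorem not_locating_le (hm : 0 < m) (hH : H.Connected) {b b' : B} (hb : b ≠ b') {k : ℕ}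
    (hk : k ≤ m) (c : Fin m × B → Fin k) : ¬ IsLocating (KP m H) c := by
  rintro ⟨h1, h2, h3⟩
  have hG := kp_connected hm hH
  have hle : m ≤ k := by
    have := Fintype.card_le_of_injective _ (layer_inj h1 b)
    rwa [Fintype.card_fin, Fintype.card_fin] at this
  obtain rfl : k = m := le_antisymm hk hle
  have hs : ∀ b, Function.Surjective fun g => c (g, b) := fun b =>
    Finite.surjective_of_injective (layer_inj h1 b)
  have code : ∀ v i, dset (KP k H) v {w | c w = i} = if c v = i then 0 else 1 := by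
    intro v i
    split_ifs with h
    · exact dset_zero h
    · obtain ⟨g, hg⟩ := hs v.2 i
      refine dset_one hG (s := (g, v.2)) h hg (kp_adj.2 (Or.inl ⟨fun e => h ?_, rfl⟩))
      have e' : v.1 = g := e
      rw [← e'] at hg
      exact hg
  obtain ⟨g, hg⟩ := hs b' (c (⟨0, hm⟩, b))
  have := h3 (⟨0, hm⟩, b) (g, b') fun i => by
    rw [code, code]
    have hg' : c (g, b') = c (⟨0, hm⟩, b) := hg
    rw [hg']
  exact hb (congrArg Prod.snd this)

lemma exists_missing (hm : 0 < m) {x : Fin m → Fin (m + 1)} (hx : Function.Injective x) :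
    ∃ j, (∀ g, x g ≠ j) ∧ ∀ i, i ≠ j → ∃ g, x g = i := by
  classical
  have : ¬ Function.Surjective x := fun h => by
    have := Fintype.card_le_of_surjective x h
    rw [Fintype.card_fin, Fintype.card_fin] at this
    omega
  rw [Function.Surjective] at this
  push Not at this
  obtain ⟨j, hj⟩ := this
  refine ⟨j, hj, fun i hi => ?_⟩
  by_contra hcon
  push Not at hcon
  have h1 : Finset.univ.image x ⊆ Finset.univ \ {i, j} := by
    intro t ht
    rw [Finset.mem_image] at ht
    obtain ⟨g, _, rfl⟩ := ht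
    rw [Finset.mem_sdiff, Finset.mem_insert, Finset.mem_singleton, not_or]
    exact ⟨Finset.mem_univ _, hcon g, hj g⟩
  have h2 := Finset.card_le_card h1
  rw [Finset.card_image_of_injective _ hx, Finset.card_sdiff_of_subset (Finset.subset_univ _),
    Finset.card_univ, Finset.card_univ, Fintype.card_fin, Fintype.card_fin,
    Finset.card_pair hi] at h2
  omega

lemma exists_edge_out (hH : H.Connected) (S : Set B) {a b : B} (ha : a ∈ S) (hb : b ∉ S) :
    ∃ x y, x ∈ S ∧ y ∉ S ∧ H.Adj x y := by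
  obtain ⟨w⟩ := hH.preconnected a b
  obtain ⟨d, -, h1, h2⟩ := w.exists_boundary_dart S ha hb
  exact ⟨d.fst, d.snd, h1, h2, d.adj⟩

theorem not_locating_succ [Fintype B] (hm : 5 ≤ m) (hH : H.Connected)
    (hdeg : ∀ b, ∃ y y', ∀ z, H.Adj b z → z = y ∨ z = y') (hB : m + 2 ≤ Fintype.card B)
    (c : Fin m × B → Fin (m + 1)) : ¬ IsLocating (KP m H) c := by
  classical
  rintro ⟨h1, h2, h3⟩
  have hm0 : 0 < m := by omega
  have hG := kp_connected hm0 hH
  choose j hj1 hj2 using fun b => exists_missing hm0 (layer_inj h1 b)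
  obtain ⟨b1, b2, hb12, hjb⟩ :=
    Fintype.exists_ne_map_eq_of_card_lt j (by rw [Fintype.card_fin]; omega)
  obtain ⟨q, hq⟩ : ∃ q, q = j b1 := ⟨_, rfl⟩
  have hq2 : j b2 = q := by rw [hq, hjb]
  obtain ⟨w0, hw0⟩ := h2 q
  -- the codes in the layers missing `q`
  have same : ∀ g b g' b', j b = q → j b' = q → b ≠ b' → c (g, b) = c (g', b') →
      dset (KP m H) (g, b) {w | c w = q} = dset (KP m H) (g', b') {w | c w = q} → False := by
    have code : ∀ g b i, j b = q → i ≠ q →
        dset (KP m H) (g, b) {w | c w = i} = if c (g, b) = i then 0 else 1 := by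
      intro g b i hb hi
      split_ifs with h
      · exact dset_zero h
      · obtain ⟨g', hg'⟩ := hj2 b i (by rw [hb]; exact hi)
        refine dset_one hG (s := (g', b)) h hg' (kp_adj.2 (Or.inl ⟨fun e => h ?_, rfl⟩))
        have e' : g = g' := e
        rw [e']
        exact hg'
    intro g b g' b' hb hb' hne hcol hd
    refine hne (congrArg Prod.snd (h3 (g, b) (g', b') fun i => ?_))
    by_cases hi : i = q
    · rw [hi]; exact hd
    · rw [code g b i hb hi, code g' b' i hb' hi, hcol]
  -- distance two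
  have two : ∀ g b y, j b = q → H.Adj b y → j y ≠ q → (∀ z, H.Adj b z → c (g, z) ≠ q) →
      dset (KP m H) (g, b) {w | c w = q} = 2 := by
    intro g b y hb hby hy hz
    obtain ⟨g0, hg0⟩ := hj2 y q (Ne.symm hy)
    refine dset_two hG (s := (g0, y)) ?_ ?_ hg0 ?_
    · intro h
      exact hj1 b g (by rw [hb]; exact h)
    · intro w hw hadj
      rw [kp_adj] at hadj
      rcases hadj with ⟨-, h3⟩ | ⟨h3, h4⟩
      · have h3' : b = w.2 := h3
        have hw' : c (w.1, w.2) = q := hw
        rw [← h3'] at hw'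
        exact hj1 b w.1 (by rw [hb]; exact hw')
      · have h4' : g = w.1 := h4
        have hw' : c (w.1, w.2) = q := hw
        rw [← h4'] at hw'
        exact hz w.2 h3 hw'
    · rw [kp_dist hm0 hH]
      have : H.dist b y = 1 := SimpleGraph.dist_eq_one_iff_adj.2 hby
      show (if g = g0 then 0 else 1) + H.dist b y ≤ 2
      rw [this]
      split_ifs <;> omega
  -- a boundary layer
  have hw0' : j w0.2 ≠ q := fun h => hj1 w0.2 w0.1 (by rw [h]; exact hw0)
  obtain ⟨x, y, hx, hy, hxy⟩ :=
    exists_edge_out hH {b | j b = q} (a := b1) (b := w0.2) hq.symm hw0'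
  have hx : j x = q := hx
  have hy : j y ≠ q := hy
  -- it is unique
  have uniq : ∀ x' y', j x' = q → j y' ≠ q → H.Adj x' y' → x' = x := by
    intro x' y' hx' hy' hxy'
    by_contra hne'
    obtain ⟨z1, z2, hz⟩ := hdeg x
    obtain ⟨z1', z2', hz'⟩ := hdeg x'
    have col : ∀ z, ∃ g, ∀ g', c (g', z) = q → g' = g := by
      intro z
      by_cases h : j z = q
      · exact ⟨⟨0, hm0⟩, fun g' hg' => (hj1 z g' (by rw [h]; exact hg')).elim⟩
      · obtain ⟨g, hg⟩ := hj2 z q (Ne.symm h)
        exact ⟨g, fun g' hg' => layer_inj h1 z (hg'.trans hg.symm)⟩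
    choose col hcol using col
    obtain ⟨i, hi⟩ : ∃ i, i ∉ ({q, c (col z1, x), c (col z2, x), c (col z1', x'),
        c (col z2', x')} : Finset (Fin (m + 1))) := by
      by_contra hcon
      push Not at hcon
      have h4 : (Finset.univ : Finset (Fin (m + 1))) ⊆ {q, c (col z1, x), c (col z2, x),
        c (col z1', x'), c (col z2', x')} := fun i _ => hcon i
      have h5 := Finset.card_le_card h4
      have h6 := Finset.card_le_five (a := q) (b := c (col z1, x)) (c := c (col z2, x))
        (d := c (col z1', x')) (e := c (col z2', x'))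
      rw [Finset.card_univ, Fintype.card_fin] at h5
      omega
    simp only [Finset.mem_insert, Finset.mem_singleton, not_or] at hi
    obtain ⟨i0, i1, i2, i3, i4⟩ := hi
    obtain ⟨g, hg⟩ := hj2 x i (by rw [hx]; exact i0)
    obtain ⟨g', hg'⟩ := hj2 x' i (by rw [hx']; exact i0)
    refine same g x g' x' hx hx' (Ne.symm hne') (hg.trans hg'.symm) ?_
    rw [two g x y hx hxy hy ?_, two g' x' y' hx' hxy' hy' ?_]
    · intro z hxz hcz
      have := hcol z g' hcz
      rcases hz' z hxz with rfl | rfl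
      · exact i3 (by rw [← this]; exact hg'.symm)
      · exact i4 (by rw [← this]; exact hg'.symm)
    · intro z hxz hcz
      have := hcol z g hcz
      rcases hz z hxz with rfl | rfl
      · exact i1 (by rw [← this]; exact hg.symm)
      · exact i2 (by rw [← this]; exact hg.symm)
  -- another layer missing `q`
  obtain ⟨b, hb, hbx⟩ : ∃ b, j b = q ∧ b ≠ x := by
    by_cases h : b1 = x
    · exact ⟨b2, hq2, fun e => hb12 (h.trans e.symm)⟩
    · exact ⟨b1, hq.symm, h⟩
  obtain ⟨x2, y2, hx2, hy2, hxy2⟩ :=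
    exists_edge_out hH {b | j b = q ∧ b ≠ x} (a := b) (b := x) ⟨hb, hbx⟩ (fun h => h.2 rfl)
  obtain ⟨hx2, hx2'⟩ := hx2
  have hy2' : y2 = x := by
    by_contra h
    have : j y2 ≠ q := fun e => hy2 ⟨e, h⟩
    exact hx2' (uniq x2 y2 hx2 this hxy2)
  rw [hy2'] at hxy2
  -- the neighbours of `x`
  have nb : ∀ z, H.Adj x z → z = x2 ∨ z = y := by
    obtain ⟨z1, z2, hz⟩ := hdeg x
    have hne2 : x2 ≠ y := fun e => hy (by rw [← e]; exact hx2)
    intro z hz'
    have e1 := hz x2 hxy2.symm
    have e2 := hz y hxy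
    have e3 := hz z hz'
    rcases e1 with e1 | e1 <;> rcases e2 with e2 | e2 <;> rcases e3 with e3 | e3
    · exact Or.inl (e3.trans e1.symm)
    · exact (hne2 (e1.trans e2.symm)).elim
    · exact Or.inl (e3.trans e1.symm)
    · exact Or.inr (e3.trans e2.symm)
    · exact Or.inr (e3.trans e2.symm)
    · exact Or.inl (e3.trans e1.symm)
    · exact (hne2 (e1.trans e2.symm)).elim
    · exact Or.inl (e3.trans e1.symm)
  obtain ⟨g0, hg0⟩ := hj2 y q (Ne.symm hy)
  obtain ⟨g, hg⟩ := hj2 x (c (g0, x2)) (by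
    rw [hx]
    exact fun e => hj1 x2 g0 (by rw [hx2]; exact e))
  refine same g0 x2 g x hx2 hx hx2' hg.symm ?_
  rw [two g x y hx hxy hy ?_]
  · refine dset_two hG (s := (g0, y)) ?_ ?_ hg0 ?_
    · exact fun h => hj1 x2 g0 (by rw [hx2]; exact h)
    · intro w hw hadj
      rw [kp_adj] at hadj
      rcases hadj with ⟨-, h3⟩ | ⟨h3, h4⟩
      · have h3' : x2 = w.2 := h3
        have hw' : c (w.1, w.2) = q := hw
        rw [← h3'] at hw'
        exact hj1 x2 w.1 (by rw [hx2]; exact hw')
      · have h5 : j w.2 = q := by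
          by_contra e
          exact hx2' (uniq x2 w.2 hx2 e h3)
        exact hj1 w.2 w.1 (by rw [h5]; exact hw)
    · rw [kp_dist hm0 hH]
      have h4 := hH.dist_triangle (u := x2) (v := x) (w := y)
      rw [SimpleGraph.dist_eq_one_iff_adj.2 hxy2, SimpleGraph.dist_eq_one_iff_adj.2 hxy] at h4
      show (if g0 = g0 then 0 else 1) + H.dist x2 y ≤ 2
      rw [if_pos rfl]
      omega
  · intro z hxz hcz
    rcases nb z hxz with rfl | rfl
    · exact hj1 z g (by rw [hx2]; exact hcz)
    · have h4 : g = g0 := layer_inj h1 _ (hcz.trans hg0.symm)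
      rw [h4] at hg
      exact h1 (g0, x) (g0, x2) (kp_adj.2 (Or.inr ⟨hxy2.symm, rfl⟩)) hg

end lower

end Pool.Agent.Q124.LC
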