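import Pool.Agent.Q124.LC.Defs

/-!
# Locating colourings from good sequences of layers
-/

set_option autoImplicit false

namespace Pool.Agent.Q124.LC

open SimpleGraph

structure Good {m n : ℕ} (H : SimpleGraph (Fin n)) (j s : Fin n → Fin (m + 1)) (p : Fin n → Fin m)
    (φ : Fin n → Fin m → Fin (m + 1)) : Prop where
  inj : ∀ h, Function.Injective (φ h)
  miss : ∀ h g, φ h g ≠ j h
  own : ∀ h, φ h (p h) = s h
  pos : ∀ h h', H.Adj h h' → φ h' (p h) = j h
  prop : ∀ h h', H.Adj h h' → ∀ g, φ h g ≠ φ h' g

namespace Good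

variable {m n : ℕ} {H : SimpleGraph (Fin n)} {j s : Fin n → Fin (m + 1)} {p : Fin n → Fin m}
  {φ : Fin n → Fin m → Fin (m + 1)}

lemma surj (G : Good H j s p φ) (h : Fin n) {c : Fin (m + 1)} (hc : c ≠ j h) : ∃ g, φ h g = c := by
  classical
  by_contra hcon
  push Not at hcon
  have h1 : Finset.univ.image (φ h) ⊆ Finset.univ \ {c, j h} := by
    intro x hx
    rw [Finset.mem_image] at hx
    obtain ⟨g, _, rfl⟩ := hx
    rw [Finset.mem_sdiff, Finset.mem_insert, Finset.mem_singleton, not_or]
    exact ⟨Finset.mem_univ _, hcon g, G.miss h g⟩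
  have h2 := Finset.card_le_card h1
  rw [Finset.card_image_of_injective _ (G.inj h), Finset.card_sdiff_of_subset (Finset.subset_univ _),
    Finset.card_univ, Finset.card_univ, Fintype.card_fin, Fintype.card_fin,
    Finset.card_pair hc] at h2
  have := h
  have hm : 0 < m ∨ m = 0 := by omega
  rcases hm with hm | hm
  · omega
  · subst hm
    exact (p h).elim0

/-- with `m + 1` colours -/
theorem locating_one (G : Good H j s p φ) (hH : H.Connected) (hm : 0 < m)
    (hj : Function.Injective j) (hs : Function.Injective s) (hn : 2 ≤ n) :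
    IsLocating (KP m H) (fun x => φ x.2 x.1) := by
  have hc := kp_connected hm hH
  have hne : ∀ c : Fin (m + 1), ({w : Fin m × Fin n | φ w.2 w.1 = c}).Nonempty := by
    intro c
    have : j ⟨0, by omega⟩ ≠ j ⟨1, by omega⟩ := fun h => by
      have := hj h
      simp [Fin.ext_iff] at this
    by_cases h0 : c = j ⟨0, by omega⟩
    · obtain ⟨g, hg⟩ := G.surj ⟨1, by omega⟩ (c := c) (by rw [h0]; exact this)
      exact ⟨(g, _), hg⟩
    · obtain ⟨g, hg⟩ := G.surj ⟨0, by omega⟩ (c := c) h0
      exact ⟨(g, _), hg⟩
  refine ⟨?_, ?_, ?_⟩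
  · intro u v huv
    rw [kp_adj] at huv
    rcases huv with ⟨h1, h2⟩ | ⟨h1, h2⟩
    · show φ u.2 u.1 ≠ φ v.2 v.1
      rw [h2]
      exact fun h => h1 (G.inj _ h)
    · show φ u.2 u.1 ≠ φ v.2 v.1
      rw [h2]
      exact G.prop _ _ h1 _
  · intro c
    obtain ⟨w, hw⟩ := hne c
    exact ⟨w, hw⟩
  · rintro ⟨g, h⟩ ⟨g', h'⟩ heq
    have hcol : φ h g = φ h' g' := by
      have h1 := heq (φ h g)
      rw [dset_zero (show (g, h) ∈ {w : Fin m × Fin n | φ w.2 w.1 = φ h g} from rfl)] at h1
      exact (mem_of_dset_zero hc (hne _) h1.symm).symm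
    by_cases hh : h = h'
    · subst hh
      rw [G.inj _ hcol]
    · exfalso
      -- the key step
      have key : ∀ (g h g' h'), φ h g = φ h' g' → h ≠ h' →
          (∀ i : Fin (m + 1), dset (KP m H) (g, h) {w : Fin m × Fin n | φ w.2 w.1 = i} =
            dset (KP m H) (g', h') {w : Fin m × Fin n | φ w.2 w.1 = i}) → φ h g = s h := by
        intro g h g' h' hcol hh heq
        obtain ⟨g1, hg1⟩ := G.surj h' (c := j h) (fun e => hh (hj e))
        have h2 : dset (KP m H) (g', h') {w : Fin m × Fin n | φ w.2 w.1 = j h} = 1 := by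
          refine dset_one hc (s := (g1, h')) ?_ hg1 ?_
          · show φ h' g' ≠ j h
            rw [← hcol]
            exact G.miss h g
          · rw [kp_adj]
            left
            refine ⟨fun e => ?_, rfl⟩
            have e' : g' = g1 := e
            rw [← e', ← hcol] at hg1
            exact G.miss h g hg1
        rw [← heq] at h2
        obtain ⟨w, hw, ha⟩ := adj_of_dset_one ⟨(g1, h'), hg1⟩ h2
        rw [kp_adj] at ha
        rcases ha with ⟨_, h3⟩ | ⟨h3, h4⟩
        · have h3' : h = w.2 := h3
          have hw' : φ w.2 w.1 = j h := hw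
          rw [← h3'] at hw'
          exact (G.miss _ _ hw').elim
        · have h4' : g = w.1 := h4
          have h3' : H.Adj h w.2 := h3
          have hw' : φ w.2 w.1 = j h := hw
          rw [← h4'] at hw'
          have h5 : g = p h := G.inj _ (hw'.trans (G.pos _ _ h3').symm)
          rw [h5, G.own]
      have h1 := key g h g' h' hcol hh heq
      have h2 := key g' h' g h hcol.symm (Ne.symm hh) (fun i => (heq i).symm)
      exact hh (hs (h1.symm.trans (hcol.trans h2)))

/-- with `m + 2` colours -/
theorem locating_two (G : Good H j s p φ) (hH : H.Connected) (hm : 0 < m) (z : Fin n) (a : Fin m)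
    (ha : a ≠ p z) (ha' : ∀ h, H.Adj z h → a ≠ p h)
    (hd : ∀ h h', h ≠ h' → H.dist h z ≤ H.dist h' z + 1 → H.dist h' z ≤ H.dist h z + 1 →
      j h ≠ j h' ∧ s h ≠ s h')
    (hex : ∃ h1 h2, h1 ≠ z ∧ h2 ≠ z ∧ j h1 ≠ j h2) :
    ∃ c : Fin m × Fin n → Fin (m + 2), IsLocating (KP m H) c := by
  classical
  have hc := kp_connected hm hH
  let c : Fin m × Fin n → Fin (m + 2) := fun x =>
    if x = (a, z) then Fin.last (m + 1) else (φ x.2 x.1).castSucc
  have c1 : c (a, z) = Fin.last (m + 1) := if_pos rfl
  have c2 : ∀ x, x ≠ (a, z) → c x = (φ x.2 x.1).castSucc := fun x hx => if_neg hx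
  have c3 : ∀ x i, c x = Fin.castSucc i → x ≠ (a, z) ∧ φ x.2 x.1 = i := by
    intro x i hx
    by_cases h : x = (a, z)
    · rw [h, c1] at hx
      exact (Fin.castSucc_lt_last i).ne hx.symm |>.elim
    · rw [c2 x h] at hx
      exact ⟨h, Fin.castSucc_injective _ hx⟩
  -- the colour `i` in a layer different from `z`
  have hin : ∀ h i, h ≠ z → i ≠ j h → ∃ g, c (g, h) = Fin.castSucc i := by
    intro h i hz hi
    obtain ⟨g, hg⟩ := G.surj h hi
    refine ⟨g, ?_⟩
    rw [c2 _ (fun e => hz (congrArg Prod.snd e))]
    exact congrArg Fin.castSucc hg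
  have hne : ∀ i : Fin (m + 2), ({w : Fin m × Fin n | c w = i}).Nonempty := by
    intro i
    refine Fin.lastCases ?_ (fun i => ?_) i
    · exact ⟨(a, z), c1⟩
    · obtain ⟨h1, h2, e1, e2, e3⟩ := hex
      by_cases h : i = j h1
      · obtain ⟨g, hg⟩ := hin h2 i e2 (by rw [h]; exact e3)
        exact ⟨_, hg⟩
      · obtain ⟨g, hg⟩ := hin h1 i e1 h
        exact ⟨_, hg⟩
  -- distance one to a colour of the layer
  have hone : ∀ g h i, h ≠ z → i ≠ j h → φ h g ≠ i →
      dset (KP m H) (g, h) {w | c w = Fin.castSucc i} = 1 := by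
    intro g h i hz hi hg
    obtain ⟨g1, hg1⟩ := hin h i hz hi
    refine dset_one hc (s := (g1, h)) ?_ hg1 ?_
    · intro h2
      exact hg (c3 _ _ h2).2
    · rw [kp_adj]
      left
      refine ⟨fun e => ?_, rfl⟩
      have e' : g = g1 := e
      rw [← e'] at hg1
      exact hg (c3 _ _ hg1).2
  -- distance one to the missing colour
  have hspec : ∀ g h, dset (KP m H) (g, h) {w | c w = Fin.castSucc (j h)} = 1 → g = p h := by
    intro g h h1
    obtain ⟨w, hw, hadj⟩ := adj_of_dset_one (hne _) h1
    obtain ⟨-, hw2⟩ := c3 _ _ hw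
    rw [kp_adj] at hadj
    rcases hadj with ⟨_, h3⟩ | ⟨h3, h4⟩
    · have h3' : h = w.2 := h3
      rw [← h3'] at hw2
      exact (G.miss _ _ hw2).elim
    · have h4' : g = w.1 := h4
      rw [← h4'] at hw2
      exact G.inj _ (hw2.trans (G.pos _ _ h3).symm)
  have hA : ∀ x : Fin m × Fin n, dset (KP m H) x {w | c w = Fin.last (m + 1)} =
      (if x.1 = a then 0 else 1) + H.dist x.2 z := by
    intro x
    have : {w : Fin m × Fin n | c w = Fin.last (m + 1)} = {(a, z)} := by
      ext w
      rw [Set.mem_setOf_eq, Set.mem_singleton_iff]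
      constructor
      · intro hw
        by_contra hne
        rw [c2 w hne] at hw
        exact (Fin.castSucc_lt_last _).ne hw
      · rintro rfl
        exact c1
    rw [this]
    have h1 := kp_dist hm hH x (a, z)
    have h2 : dset (KP m H) x {(a, z)} = (KP m H).dist x (a, z) := by
      obtain ⟨w, hw, hw2⟩ := dset_exists (G := KP m H) (v := x) ⟨(a, z), Set.mem_singleton _⟩
      rw [Set.mem_singleton_iff] at hw
      rw [← hw2, hw]
    rw [h2, h1]
  refine ⟨c, ?_, ?_, ?_⟩
  · intro u v huv
    by_cases hu : u = (a, z)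
    · have hv : v ≠ (a, z) := fun h => by rw [hu, h] at huv; exact huv.ne rfl
      rw [hu, c1, c2 v hv]
      exact (Fin.castSucc_lt_last _).ne'
    · by_cases hv : v = (a, z)
      · rw [hv, c1, c2 u hu]
        exact (Fin.castSucc_lt_last _).ne
      · rw [c2 u hu, c2 v hv]
        intro h
        have h := Fin.castSucc_injective _ h
        rw [kp_adj] at huv
        rcases huv with ⟨h1, h2⟩ | ⟨h1, h2⟩
        · rw [h2] at h
          exact h1 (G.inj _ h)
        · rw [h2] at h
          exact G.prop _ _ h1 _ h
  · intro i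
    obtain ⟨w, hw⟩ := hne i
    exact ⟨w, hw⟩
  · rintro ⟨g, h⟩ ⟨g', h'⟩ heq
    have hcol : c (g, h) = c (g', h') := by
      have h1 := heq (c (g, h))
      rw [dset_zero (show (g, h) ∈ {w : Fin m × Fin n | c w = c (g, h)} from rfl)] at h1
      exact (mem_of_dset_zero hc (hne _) h1.symm).symm
    by_cases hu : (g, h) = (a, z)
    · by_contra hne'
      have hv : (g', h') ≠ (a, z) := fun h => hne' (hu.trans h.symm)
      rw [hu, c1, c2 _ hv] at hcol
      exact (Fin.castSucc_lt_last _).ne hcol.symm
    · have hv : (g', h') ≠ (a, z) := fun h => by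
        rw [h, c1, c2 _ hu] at hcol
        exact (Fin.castSucc_lt_last _).ne hcol
      have hcol' : φ h g = φ h' g' := by
        rw [c2 _ hu, c2 _ hv] at hcol
        exact Fin.castSucc_injective _ hcol
      by_cases hh : h = h'
      · subst hh
        rw [G.inj _ hcol']
      · exfalso
        have hdA := heq (Fin.last (m + 1))
        rw [hA, hA] at hdA
        simp only at hdA
        have hd1 : H.dist h z ≤ H.dist h' z + 1 := by
          split_ifs at hdA <;> omega
        have hd2 : H.dist h' z ≤ H.dist h z + 1 := by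
          split_ifs at hdA <;> omega
        have hjs := hd h h' hh hd1 hd2
        -- one of the layers is `z`
        have key0 : ∀ (g g' : Fin m) (h' : Fin n), (g, z) ≠ (a, z) → φ z g = φ h' g' → z ≠ h' →
            (∀ i : Fin (m + 2), dset (KP m H) (g, z) {w | c w = i} =
              dset (KP m H) (g', h') {w | c w = i}) → False := by
          intro g g' h' hg hcol' hh heq
          have hga : g ≠ a := fun e => hg (by rw [e])
          have hdA := heq (Fin.last (m + 1))
          rw [hA, hA] at hdA
          simp only [if_neg hga, SimpleGraph.dist_self] at hdA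
          have hpos : H.dist h' z ≠ 0 := by
            rw [Ne, hH.dist_eq_zero_iff]
            exact Ne.symm hh
          have h1 : H.dist h' z = 1 := by
            split_ifs at hdA <;> omega
          have hadj : H.Adj h' z := SimpleGraph.dist_eq_one_iff_adj.1 h1
          have hjs := hd z h' hh (by rw [SimpleGraph.dist_self]; omega)
            (by rw [SimpleGraph.dist_self]; omega)
          have e1 := hone g' h' (j z) (Ne.symm hh) hjs.1 (by rw [← hcol']; exact G.miss z g)
          rw [← heq] at e1
          have hgp : g = p z := hspec g z e1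
          -- the colour at `(a, z)`
          set t := φ z a with ht
          have ht1 : t ≠ j h' := by
            intro e
            have := G.pos h' z hadj
            rw [← this] at e
            exact ha' h' hadj.symm (G.inj _ e)
          have ht2 : φ h' g' ≠ t := by
            rw [← hcol', hgp]
            exact fun e => ha (G.inj _ e).symm
          have e2 := hone g' h' t (Ne.symm hh) ht1 ht2
          rw [← heq] at e2
          obtain ⟨w, hw, hadj2⟩ := adj_of_dset_one (hne _) e2
          obtain ⟨hw1, hw2⟩ := c3 _ _ hw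
          rw [kp_adj] at hadj2
          rcases hadj2 with ⟨_, h3⟩ | ⟨h3, h4⟩
          · have h3' : z = w.2 := h3
            rw [← h3'] at hw2
            have : w.1 = a := G.inj _ hw2
            exact hw1 (Prod.ext this h3'.symm)
          · have h4' : g = w.1 := h4
            have h3' : H.Adj z w.2 := h3
            rw [← h4', hgp, G.pos _ _ h3'] at hw2
            exact G.miss z a hw2.symm
        by_cases hz : h = z
        · subst hz
          exact key0 g g' h' hu hcol' hh heq
        · by_cases hz' : h' = z
          · subst hz'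
            exact key0 g' g h hv hcol'.symm (Ne.symm hh) (fun i => (heq i).symm)
          · have e1 := hone g' h' (j h) hz' hjs.1 (by rw [← hcol']; exact G.miss h g)
            rw [← heq] at e1
            have e2 := hone g h (j h') hz hjs.1.symm (by rw [hcol']; exact G.miss h' g')
            rw [heq] at e2
            have h1 := hspec g h e1
            have h2 := hspec g' h' e2
            rw [h1, h2, G.own, G.own] at hcol'
            exact hjs.2 hcol'

end Good

/-- distances to a vertex from a rank function -/
theorem dist_eq {B : Type} {H : SimpleGraph B} (hH : H.Connected) (z : B) (f : B → ℕ) (hz : f z = 0)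
    (h1 : ∀ x y, H.Adj x y → f x ≤ f y + 1)
    (h2 : ∀ x, x ≠ z → ∃ y, H.Adj x y ∧ f y + 1 = f x) (x : B) : H.dist x z = f x := by
  apply le_antisymm
  · induction hk : f x using Nat.strong_induction_on generalizing x with
    | _ k ih =>
      by_cases hx : x = z
      · rw [hx, SimpleGraph.dist_self]; omega
      · obtain ⟨y, hxy, hy⟩ := h2 x hx
        have h3 := ih (f y) (by omega) y rfl
        have h4 := hH.dist_triangle (u := x) (v := y) (w := z)
        rw [SimpleGraph.dist_eq_one_iff_adj.2 hxy] at h4
        omega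
  · obtain ⟨w, hw⟩ := (hH.preconnected x z).exists_walk_length_eq_dist
    rw [← hw]
    clear hw
    have : ∀ {x y : B} (w : H.Walk x y), f x ≤ w.length + f y := by
      intro x y w
      induction w with
      | nil => simp
      | cons h _ ih =>
        have := h1 _ _ h
        rw [SimpleGraph.Walk.length_cons]
        omega
    have h3 := this w
    rw [hz] at h3
    omega

end Pool.Agent.Q124.LC
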