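import Pool.Agent.Q124.LC.Seq
import Pool.Agent.Q124.LC.Upper
import Pool.Agent.Q124.LC.Lower

/-!
# The locating chromatic numbers of `K_m □ P_n` and `K_m □ C_n`
-/

set_option autoImplicit false

namespace Pool.Agent.Q124.LC

open SimpleGraph

/-! ### Index shift -/

def sh (n x : ℕ) : ℕ := (x + (n - 2)) % n

lemma sh_lt {n : ℕ} (hn : 0 < n) (x : ℕ) : sh n x < n := Nat.mod_lt _ hn

lemma sh_add (n x k : ℕ) : sh n (x + k) = (sh n x + k) % n := by
  unfold sh
  rw [Nat.mod_add_mod]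
  congr 1
  omega

lemma sh_add_n (n x : ℕ) : sh n (x + n) = sh n x := by
  unfold sh
  have : x + n + (n - 2) = x + (n - 2) + n := by omega
  rw [this, Nat.add_mod_right]

lemma sh_two {n : ℕ} (hn : 2 ≤ n) {h : ℕ} (hh : h < n) : sh n (h + 2) = h := by
  unfold sh
  have : h + 2 + (n - 2) = h + n := by omega
  rw [this, Nat.add_mod_right, Nat.mod_eq_of_lt hh]

lemma modk {n h k : ℕ} (hh : h < n) (hk : k ≤ n) :
    (h + k) % n = if h + k < n then h + k else h + k - n := by
  split_ifs with h1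
  · exact Nat.mod_eq_of_lt h1
  · rw [Nat.mod_eq_sub_mod (by omega), Nat.mod_eq_of_lt (by omega)]

/-- the data on the indices `0, ..., n - 1` -/
structure Pre (m n : ℕ) where
  jj : ℕ → ℕ
  ss : ℕ → ℕ
  pp : ℕ → ℕ
  hj : ∀ h, h < n → jj h < m + 1
  hs : ∀ h, h < n → ss h < m + 1
  hp : ∀ h, h < n → pp h < m
  J1 : ∀ h, h < n → jj h ≠ jj ((h + 1) % n)
  J2 : ∀ h, h < n → jj h ≠ jj ((h + 2) % n)
  S0 : ∀ h, h < n → ss h ≠ jj h
  S1 : ∀ h, h < n → ss h ≠ jj ((h + 1) % n)
  S2 : ∀ h, h < n → ss ((h + 1) % n) ≠ jj h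
  P1 : ∀ h, h < n → pp h ≠ pp ((h + 1) % n)
  P2 : ∀ h, h < n → pp h ≠ pp ((h + 2) % n)
  P3 : ∀ h, h < n → pp h ≠ pp ((h + 3) % n)

variable {m n : ℕ}

def Pre.dat (D : Pre m n) (hn : 0 < n) : Dat m n where
  J x := ⟨D.jj (sh n x), D.hj _ (sh_lt hn x)⟩
  S x := ⟨D.ss (sh n x), D.hs _ (sh_lt hn x)⟩
  P x := ⟨D.pp (sh n x), D.hp _ (sh_lt hn x)⟩
  pJ h := Fin.ext (congrArg D.jj (sh_add_n n h))
  pS h := Fin.ext (congrArg D.ss (sh_add_n n h))
  pP h := Fin.ext (congrArg D.pp (sh_add_n n h))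
  J1 h e := by
    have e' : D.jj (sh n h) = D.jj (sh n (h + 1)) := congrArg Fin.val e
    rw [sh_add] at e'
    exact D.J1 _ (sh_lt hn h) e'
  J2 h e := by
    have e' : D.jj (sh n h) = D.jj (sh n (h + 2)) := congrArg Fin.val e
    rw [sh_add] at e'
    exact D.J2 _ (sh_lt hn h) e'
  S0 h e := by
    have e' : D.ss (sh n h) = D.jj (sh n h) := congrArg Fin.val e
    exact D.S0 _ (sh_lt hn h) e'
  S1 h e := by
    have e' : D.ss (sh n h) = D.jj (sh n (h + 1)) := congrArg Fin.val e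
    rw [sh_add] at e'
    exact D.S1 _ (sh_lt hn h) e'
  S2 h e := by
    have e' : D.ss (sh n (h + 1)) = D.jj (sh n h) := congrArg Fin.val e
    rw [sh_add] at e'
    exact D.S2 _ (sh_lt hn h) e'
  P1 h e := by
    have e' : D.pp (sh n h) = D.pp (sh n (h + 1)) := congrArg Fin.val e
    rw [sh_add] at e'
    exact D.P1 _ (sh_lt hn h) e'
  P2 h e := by
    have e' : D.pp (sh n h) = D.pp (sh n (h + 2)) := congrArg Fin.val e
    rw [sh_add] at e'
    exact D.P2 _ (sh_lt hn h) e'
  P3 h e := by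
    have e' : D.pp (sh n h) = D.pp (sh n (h + 3)) := congrArg Fin.val e
    rw [sh_add] at e'
    exact D.P3 _ (sh_lt hn h) e'

/-- consecutive on the cycle -/
def Cyc (n h h' : ℕ) : Prop := h + 1 = h' ∨ (h + 1 = n ∧ h' = 0)

theorem Pre.good (D : Pre m n) (hm : 8 ≤ m) (hn : 3 ≤ n) (H : SimpleGraph (Fin n))
    (hadj : ∀ h h', H.Adj h h' → Cyc n h.1 h'.1 ∨ Cyc n h'.1 h.1) :
    ∃ φ, Good H (fun h => ⟨D.jj h.1, D.hj _ h.2⟩) (fun h => ⟨D.ss h.1, D.hs _ h.2⟩)
      (fun h => ⟨D.pp h.1, D.hp _ h.2⟩) φ := by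
  obtain ⟨φ, hφ1, hφ2⟩ := (D.dat (n := n) (by omega)).cyc hm hn
  have eJ : ∀ h, (hh : h < n) → (D.dat (n := n) (by omega)).J (h + 2) = ⟨D.jj h, D.hj _ hh⟩ := by
    intro h hh
    exact Fin.ext (congrArg D.jj (sh_two (by omega) hh))
  have eS : ∀ h, (hh : h < n) → (D.dat (n := n) (by omega)).S (h + 2) = ⟨D.ss h, D.hs _ hh⟩ := by
    intro h hh
    exact Fin.ext (congrArg D.ss (sh_two (by omega) hh))
  have eP : ∀ h, (hh : h < n) → (D.dat (n := n) (by omega)).P (h + 2) = ⟨D.pp h, D.hp _ hh⟩ := by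
    intro h hh
    exact Fin.ext (congrArg D.pp (sh_two (by omega) hh))
  refine ⟨fun h => φ h.1, ?_, ?_, ?_, ?_, ?_⟩
  · exact fun h => (hφ1 h.1 h.2).inj
  · intro h g
    rw [← eJ h.1 h.2]
    exact (hφ1 h.1 h.2).miss g
  · intro h
    have := (hφ1 h.1 h.2).own
    rw [eP h.1 h.2, eS h.1 h.2] at this
    exact this
  · intro h h' ha
    rcases hadj h h' ha with h1 | h1
    · have := (hφ2 h.1 h'.1 h.2 h'.2 h1).1
      rw [eP h.1 h.2, eJ h.1 h.2] at this
      exact this
    · have := (hφ2 h'.1 h.1 h'.2 h.2 h1).2.1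
      rw [eP h.1 h.2, eJ h.1 h.2] at this
      exact this
  · intro h h' ha g
    rcases hadj h h' ha with h1 | h1
    · exact (hφ2 h.1 h'.1 h.2 h'.2 h1).2.2 g
    · exact ((hφ2 h'.1 h.1 h'.2 h.2 h1).2.2 g).symm

/-! ### The pattern -/

def pat (n h : ℕ) : ℕ := if 2 * h ≤ n then h % 4 else 4 + h % 4

lemma pat_lt (n h : ℕ) : pat n h < 8 := by
  unfold pat
  split_ifs <;> omega

lemma pat_ne {n h k : ℕ} (hn : 16 ≤ n) (hh : h < n) (hk : 1 ≤ k) (hk' : k ≤ 3) :
    pat n h ≠ pat n ((h + k) % n) := by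
  rw [modk hh (by omega)]
  unfold pat
  split_ifs <;> omega

def pre1 (hm : 16 ≤ m) (hn : 16 ≤ n) (h : n ≤ m + 1) : Pre m n where
  jj h := h
  ss h := (h + 2) % n
  pp h := pat n h
  hj _ _ := by omega
  hs x _ := lt_of_lt_of_le (Nat.mod_lt _ (by omega)) h
  hp x _ := lt_of_lt_of_le (pat_lt n x) (by omega)
  J1 x hx := by
    rw [modk hx (by omega)]
    split_ifs <;> omega
  J2 x hx := by
    rw [modk hx (by omega)]
    split_ifs <;> omega
  S0 x hx := by
    rw [modk hx (by omega)]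
    split_ifs <;> omega
  S1 x hx := by
    rw [modk hx (by omega), modk hx (by omega)]
    split_ifs <;> omega
  S2 x hx := by
    rw [Nat.mod_add_mod, Nat.add_assoc, modk hx (by omega)]
    split_ifs <;> omega
  P1 x hx := pat_ne hn hx (by omega) (by omega)
  P2 x hx := pat_ne hn hx (by omega) (by omega)
  P3 x hx := pat_ne hn hx (by omega) (by omega)

def pre2 (hm : 16 ≤ m) (hn : 16 ≤ n) : Pre m n where
  jj h := pat n h
  ss h := 8 + pat n h
  pp h := pat n h
  hj x _ := lt_of_lt_of_le (pat_lt n x) (by omega)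
  hs x _ := by have := pat_lt n x; omega
  hp x _ := lt_of_lt_of_le (pat_lt n x) (by omega)
  J1 x hx := pat_ne hn hx (by omega) (by omega)
  J2 x hx := pat_ne hn hx (by omega) (by omega)
  S0 x hx := by omega
  S1 x hx := by have := pat_lt n ((x + 1) % n); omega
  S2 x hx := by have := pat_lt n x; omega
  P1 x hx := pat_ne hn hx (by omega) (by omega)
  P2 x hx := pat_ne hn hx (by omega) (by omega)
  P3 x hx := pat_ne hn hx (by omega) (by omega)

/-! ### The locating chromatic number -/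

theorem locChrom_eq (hm : 16 ≤ m) (hn : 16 ≤ n) (H : SimpleGraph (Fin n)) (hH : H.Connected)
    (hadj : ∀ h h', H.Adj h h' → Cyc n h.1 h'.1 ∨ Cyc n h'.1 h.1)
    (hd : ∀ h h' : Fin n, h ≠ h' → H.dist h ⟨0, by omega⟩ ≤ H.dist h' ⟨0, by omega⟩ + 1 →
      H.dist h' ⟨0, by omega⟩ ≤ H.dist h ⟨0, by omega⟩ + 1 → pat n h.1 ≠ pat n h'.1) :
    locChrom (KP m H) = if n ≤ m + 1 then m + 1 else m + 2 := by
  have hle : ∀ k ∈ {k : ℕ | ∃ c : Fin m × Fin n → Fin k, IsLocating (KP m H) c}, m + 1 ≤ k := by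
    rintro k ⟨c, hc⟩
    by_contra hk
    exact not_locating_le (by omega) hH (b := (⟨0, by omega⟩ : Fin n)) (b' := ⟨1, by omega⟩)
      (by simp [Fin.ext_iff]) (by omega) c hc
  split_ifs with hnm
  · -- `m + 1` colours
    have hmem : m + 1 ∈ {k : ℕ | ∃ c : Fin m × Fin n → Fin k, IsLocating (KP m H) c} := by
      obtain ⟨φ, G⟩ := (pre1 hm hn hnm).good (by omega) (by omega) H hadj
      refine ⟨_, G.locating_one hH (by omega) ?_ ?_ (by omega)⟩
      · intro x y hxy
        have h1 := congrArg Fin.val hxy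
        exact Fin.ext h1
      · intro x y hxy
        have h1 : (x.1 + 2) % n = (y.1 + 2) % n := congrArg Fin.val hxy
        rw [modk x.2 (by omega), modk y.2 (by omega)] at h1
        apply Fin.ext
        have := x.2
        have := y.2
        split_ifs at h1 <;> omega
    exact le_antisymm (Nat.sInf_le hmem) (le_csInf ⟨_, hmem⟩ hle)
  · -- `m + 2` colours
    have hmem : m + 2 ∈ {k : ℕ | ∃ c : Fin m × Fin n → Fin k, IsLocating (KP m H) c} := by
      obtain ⟨φ, G⟩ := (pre2 hm hn).good (by omega) (by omega) H hadj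
      refine G.locating_two hH (by omega) ⟨0, by omega⟩ ⟨8, by omega⟩ ?_ ?_ ?_ ?_
      · intro e
        have e' : 8 = pat n 0 := congrArg Fin.val e
        have := pat_lt n 0
        omega
      · intro h _ e
        have e' : 8 = pat n h.1 := congrArg Fin.val e
        have := pat_lt n h.1
        omega
      · intro h h' hne h1 h2
        have h3 := hd h h' hne h1 h2
        refine ⟨fun e => h3 (congrArg Fin.val e), fun e => h3 ?_⟩
        have e' : 8 + pat n h.1 = 8 + pat n h'.1 := congrArg Fin.val e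
        omega
      · refine ⟨⟨1, by omega⟩, ⟨2, by omega⟩, ?_, ?_, ?_⟩
        · simp [Fin.ext_iff]
        · simp [Fin.ext_iff]
        · intro e
          have e' : pat n 1 = pat n 2 := congrArg Fin.val e
          unfold pat at e'
          split_ifs at e' <;> omega
    refine le_antisymm (Nat.sInf_le hmem) (le_csInf ⟨_, hmem⟩ ?_)
    rintro k ⟨c, hc⟩
    have h1 := hle k ⟨c, hc⟩
    by_contra h2
    obtain rfl : k = m + 1 := by omega
    refine not_locating_succ (by omega) hH ?_ (by rw [Fintype.card_fin]; omega) c hc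
    intro b
    refine ⟨⟨(b.1 + 1) % n, Nat.mod_lt _ (by omega)⟩, ⟨(b.1 + (n - 1)) % n, Nat.mod_lt _ (by omega)⟩,
      fun z hz => ?_⟩
    have hb := b.2
    have hz2 := z.2
    rcases hadj b z hz with h3 | h3
    · left
      apply Fin.ext
      show z.1 = (b.1 + 1) % n
      rw [modk hb (by omega)]
      rcases h3 with h3 | ⟨h3, h4⟩ <;> split_ifs <;> omega
    · right
      apply Fin.ext
      show z.1 = (b.1 + (n - 1)) % n
      rw [modk hb (by omega)]
      rcases h3 with h3 | ⟨h3, h4⟩ <;> split_ifs <;> omega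

lemma cycleGraph_adj_iff (hn : 3 ≤ n) (u v : Fin n) :
    (cycleGraph n).Adj u v ↔ Cyc n u.1 v.1 ∨ Cyc n v.1 u.1 := by
  have key : ∀ u v : Fin n, (u - v).val = 1 ↔ Cyc n v.1 u.1 := by
    intro u v
    have hu := u.2
    have hv := v.2
    rw [Fin.sub_def]
    show (n - v.1 + u.1) % n = 1 ↔ _
    have e : n - v.1 + u.1 = u.1 + (n - v.1) := by omega
    rw [e, modk hu (by omega)]
    unfold Cyc
    split_ifs with h1
    · constructor
      · intro h; omega
      · rintro (h | ⟨h, h'⟩) <;> omega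
    · constructor
      · intro h; omega
      · rintro (h | ⟨h, h'⟩) <;> omega
  rw [cycleGraph_adj', key, key, or_comm]

theorem locChrom_path (hm : 16 ≤ m) (hn : 16 ≤ n) :
    locChrom (KP m (pathGraph n)) = if n ≤ m + 1 then m + 1 else m + 2 := by
  obtain ⟨k, rfl⟩ : ∃ k, n = k + 1 := ⟨n - 1, by omega⟩
  have hH := pathGraph_connected k
  have hdist : ∀ x : Fin (k + 1), (pathGraph (k + 1)).dist x ⟨0, by omega⟩ = x.1 := by
    refine dist_eq hH _ (fun x => x.1) rfl ?_ ?_
    · intro x y hxy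
      rw [pathGraph_adj] at hxy
      omega
    · intro x hx
      have hx' : x.1 ≠ 0 := fun h => hx (Fin.ext h)
      have := x.2
      refine ⟨⟨x.1 - 1, by omega⟩, ?_, ?_⟩
      · rw [pathGraph_adj]
        right
        show x.1 - 1 + 1 = x.1
        omega
      · show x.1 - 1 + 1 = x.1
        omega
  refine locChrom_eq hm hn _ hH ?_ ?_
  · intro h h' ha
    rw [pathGraph_adj] at ha
    rcases ha with ha | ha
    · exact Or.inl (Or.inl ha)
    · exact Or.inr (Or.inl ha)
  · intro h h' hne h1 h2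
    rw [hdist, hdist] at h1 h2
    have hne' : h.1 ≠ h'.1 := fun e => hne (Fin.ext e)
    have := h.2
    have := h'.2
    unfold pat
    split_ifs <;> omega

theorem locChrom_cycle (hm : 16 ≤ m) (hn : 16 ≤ n) :
    locChrom (KP m (cycleGraph n)) = if n ≤ m + 1 then m + 1 else m + 2 := by
  obtain ⟨k, rfl⟩ : ∃ k, n = k + 1 := ⟨n - 1, by omega⟩
  have hH := cycleGraph_connected (n := k)
  have hdist : ∀ x : Fin (k + 1), (cycleGraph (k + 1)).dist x ⟨0, by omega⟩ =
      min x.1 (k + 1 - x.1) := by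
    refine dist_eq hH _ (fun x => min x.1 (k + 1 - x.1)) ?_ ?_ ?_
    · show min 0 _ = 0
      omega
    · intro x y hxy
      rw [cycleGraph_adj_iff (by omega)] at hxy
      unfold Cyc at hxy
      show min x.1 (k + 1 - x.1) ≤ min y.1 (k + 1 - y.1) + 1
      have := x.2
      have := y.2
      omega
    · intro x hx
      have hx' : x.1 ≠ 0 := fun h => hx (Fin.ext h)
      have := x.2
      by_cases h : 2 * x.1 ≤ k + 1
      · refine ⟨⟨x.1 - 1, by omega⟩, ?_, ?_⟩
        · rw [cycleGraph_adj_iff (by omega)]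
          right; left
          show x.1 - 1 + 1 = x.1
          omega
        · show min (x.1 - 1) (k + 1 - (x.1 - 1)) + 1 = min x.1 (k + 1 - x.1)
          omega
      · by_cases h2 : x.1 = k
        · refine ⟨⟨0, by omega⟩, ?_, ?_⟩
          · rw [cycleGraph_adj_iff (by omega)]
            left; right
            exact ⟨by omega, rfl⟩
          · show min 0 (k + 1 - 0) + 1 = min x.1 (k + 1 - x.1)
            omega
        · refine ⟨⟨x.1 + 1, by omega⟩, ?_, ?_⟩
          · rw [cycleGraph_adj_iff (by omega)]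
            left; left
            rfl
          · show min (x.1 + 1) (k + 1 - (x.1 + 1)) + 1 = min x.1 (k + 1 - x.1)
            omega
  refine locChrom_eq hm hn _ hH ?_ ?_
  · intro h h' ha
    rwa [cycleGraph_adj_iff (by omega)] at ha
  · intro h h' hne h1 h2
    rw [hdist, hdist] at h1 h2
    have hne' : h.1 ≠ h'.1 := fun e => hne (Fin.ext e)
    have := h.2
    have := h'.2
    unfold pat
    split_ifs <;> omega

end Pool.Agent.Q124.LC
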