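import Pool.Agent.Q124.LC.Fill

/-!
# A cyclic sequence of layers
-/

set_option autoImplicit false

namespace Pool.Agent.Q124.LC

/-- the data: missing colours `J`, colours `S` of the special vertices, their columns `P` -/
structure Dat (m n : ℕ) where
  J : ℕ → Fin (m + 1)
  S : ℕ → Fin (m + 1)
  P : ℕ → Fin m
  pJ : ∀ h, J (h + n) = J h
  pS : ∀ h, S (h + n) = S h
  pP : ∀ h, P (h + n) = P h
  J1 : ∀ h, J h ≠ J (h + 1)
  J2 : ∀ h, J h ≠ J (h + 2)
  S0 : ∀ h, S h ≠ J h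
  S1 : ∀ h, S h ≠ J (h + 1)
  S2 : ∀ h, S (h + 1) ≠ J h
  P1 : ∀ h, P h ≠ P (h + 1)
  P2 : ∀ h, P h ≠ P (h + 2)
  P3 : ∀ h, P h ≠ P (h + 3)

variable {m n : ℕ}

namespace Dat

variable (D : Dat m n)

structure Lay (b : ℕ) (x : Fin m → Fin (m + 1)) : Prop where
  inj : Function.Injective x
  miss : ∀ g, x g ≠ D.J (b + 2)
  own : x (D.P (b + 2)) = D.S (b + 2)
  prev : x (D.P (b + 1)) = D.J (b + 1)
  next : x (D.P (b + 3)) = D.J (b + 3)

structure Valid (b : ℕ) (x : Fin m → Fin (m + 1)) : Prop where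
  lay : D.Lay b x
  next2 : x (D.P (b + 4)) ≠ D.J (b + 4)
  prev2 : x (D.P b) ≠ D.J b

theorem exists_lay (hm : 8 ≤ m) (b : ℕ) (F1 F2 : Fin m → Fin (m + 1)) (h1 : Function.Injective F1)
    (h2 : Function.Injective F2) : ∃ x, D.Lay b x ∧
      ∀ g, g ≠ D.P (b + 1) → g ≠ D.P (b + 2) → g ≠ D.P (b + 3) → x g ≠ F1 g ∧ x g ≠ F2 g := by
  have ha : Function.Injective ![D.P (b + 1), D.P (b + 2), D.P (b + 3)] := by
    have e1 := D.P1 (b + 1)
    have e2 := D.P2 (b + 1)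
    have e3 := D.P1 (b + 2)
    intro i k hik
    fin_cases i <;> fin_cases k <;>
      first
      | rfl
      | exact (e1 hik).elim
      | exact (e2 hik).elim
      | exact (e3 hik).elim
      | exact (e1 hik.symm).elim
      | exact (e2 hik.symm).elim
      | exact (e3 hik.symm).elim
  have hb : Function.Injective ![D.J (b + 1), D.S (b + 2), D.J (b + 3)] := by
    have e1 : D.J (b + 1) ≠ D.S (b + 2) := (D.S2 (b + 1)).symm
    have e2 : D.J (b + 1) ≠ D.J (b + 3) := D.J2 (b + 1)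
    have e3 : D.S (b + 2) ≠ D.J (b + 3) := D.S1 (b + 2)
    intro i k hik
    fin_cases i <;> fin_cases k <;>
      first
      | rfl
      | exact (e1 hik).elim
      | exact (e2 hik).elim
      | exact (e3 hik).elim
      | exact (e1 hik.symm).elim
      | exact (e2 hik.symm).elim
      | exact (e3 hik.symm).elim
  have hb0 : ∀ i, ![D.J (b + 1), D.S (b + 2), D.J (b + 3)] i ≠ D.J (b + 2) := by
    intro i
    fin_cases i
    · exact D.J1 (b + 1)
    · exact D.S0 (b + 2)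
    · exact (D.J1 (b + 2)).symm
  obtain ⟨x, hx1, hx2, hx3, hx4⟩ := fill hm _ ha _ hb (D.J (b + 2)) hb0 F1 F2 h1 h2
  refine ⟨x, ⟨hx1, hx2, hx3 1, hx3 0, hx3 2⟩, fun g h1 h2 h3 => hx4 g ?_⟩
  intro i
  fin_cases i
  · exact h1
  · exact h2
  · exact h3

theorem inj_with (g : Fin m) (c : Fin (m + 1)) :
    ∃ F : Fin m → Fin (m + 1), Function.Injective F ∧ F g = c :=
  ⟨fun x => Equiv.swap g.castSucc c x.castSucc,
    (Equiv.swap g.castSucc c).injective.comp (Fin.castSucc_injective m),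
    Equiv.swap_apply_left _ _⟩

theorem proper_step {b : ℕ} {x y : Fin m → Fin (m + 1)} (hx : D.Valid b x) (hy : D.Lay (b + 1) y)
    (h : ∀ g, g ≠ D.P (b + 2) → g ≠ D.P (b + 3) → g ≠ D.P (b + 4) → y g ≠ x g) :
    ∀ g, x g ≠ y g := by
  intro g
  by_cases h2 : g = D.P (b + 2)
  · rw [h2, hx.lay.own, hy.prev]
    exact D.S0 (b + 2)
  · by_cases h3 : g = D.P (b + 3)
    · rw [h3, hx.lay.next, hy.own]
      exact (D.S0 (b + 3)).symm
    · by_cases h4 : g = D.P (b + 4)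
      · rw [h4, hy.next]
        exact hx.next2
      · exact (h g h2 h3 h4).symm

theorem start (hm : 8 ≤ m) : ∃ x, D.Valid 0 x := by
  obtain ⟨F1, h1, e1⟩ := inj_with (D.P 4) (D.J 4)
  obtain ⟨F2, h2, e2⟩ := inj_with (D.P 0) (D.J 0)
  obtain ⟨x, hx, hx2⟩ := D.exists_lay hm 0 F1 F2 h1 h2
  refine ⟨x, hx, ?_, ?_⟩
  · have := (hx2 (D.P 4) (D.P3 1).symm (D.P2 2).symm (D.P1 3).symm).1
    rw [e1] at this
    exact this
  · have := (hx2 (D.P 0) (D.P1 0) (D.P2 0) (D.P3 0)).2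
    rw [e2] at this
    exact this

theorem step (hm : 8 ≤ m) (b : ℕ) (x : Fin m → Fin (m + 1)) (hx : D.Valid b x) :
    ∃ y, D.Valid (b + 1) y ∧ ∀ g, x g ≠ y g := by
  obtain ⟨F2, h2, e2⟩ := inj_with (D.P (b + 5)) (D.J (b + 5))
  obtain ⟨y, hy, hy2⟩ := D.exists_lay hm (b + 1) x F2 hx.lay.inj h2
  refine ⟨y, ⟨hy, ?_, ?_⟩, D.proper_step hx hy fun g h2 h3 h4 => (hy2 g h2 h3 h4).1⟩
  · have := (hy2 (D.P (b + 5)) (D.P3 (b + 2)).symm (D.P2 (b + 3)).symm (D.P1 (b + 4)).symm).2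
    rw [e2] at this
    exact this
  · have := (hy2 (D.P (b + 1)) (D.P1 (b + 1)) (D.P2 (b + 1)) (D.P3 (b + 1))).1
    rw [hx.lay.prev] at this
    exact this

theorem seq (hm : 8 ≤ m) : ∃ X : ℕ → Fin m → Fin (m + 1),
    ∀ b, D.Valid b (X b) ∧ ∀ g, X b g ≠ X (b + 1) g := by
  classical
  obtain ⟨x0, h0⟩ := D.start hm
  choose f hf1 hf2 using D.step hm
  let Y : (b : ℕ) → {x // D.Valid b x} := fun b =>
    Nat.rec (motive := fun b => {x // D.Valid b x}) ⟨x0, h0⟩ (fun b x => ⟨f b x.1 x.2, hf1 b x.1 x.2⟩) b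
  exact ⟨fun b => (Y b).1, fun b => ⟨(Y b).2, hf2 b (Y b).1 (Y b).2⟩⟩

theorem cyc (hm : 8 ≤ m) (hn : 3 ≤ n) : ∃ φ : ℕ → Fin m → Fin (m + 1),
    (∀ h, h < n → D.Lay h (φ h)) ∧
    ∀ h h', h < n → h' < n → (h + 1 = h' ∨ (h + 1 = n ∧ h' = 0)) →
      φ h' (D.P (h + 2)) = D.J (h + 2) ∧ φ h (D.P (h' + 2)) = D.J (h' + 2) ∧
        ∀ g, φ h g ≠ φ h' g := by
  classical
  obtain ⟨X, hX⟩ := D.seq hm
  obtain ⟨k, rfl⟩ : ∃ k, n = k + 2 := ⟨n - 2, by omega⟩
  obtain ⟨y, hy, hy2⟩ := D.exists_lay hm (k + 1) (X k) (X 0) (hX k).1.lay.inj (hX 0).1.lay.inj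
  have hpy : ∀ g, X k g ≠ y g := D.proper_step (hX k).1 hy fun g h2 h3 h4 => (hy2 g h2 h3 h4).1
  have p1 : D.P (k + 1 + 1) = D.P 0 := (congrArg D.P (by ring)).trans (D.pP 0)
  have p2 : D.P (k + 1 + 2) = D.P 1 := (congrArg D.P (by ring)).trans (D.pP 1)
  have p3 : D.P (k + 1 + 3) = D.P 2 := (congrArg D.P (by ring)).trans (D.pP 2)
  have j1 : D.J (k + 1 + 1) = D.J 0 := (congrArg D.J (by ring)).trans (D.pJ 0)
  have j2 : D.J (k + 1 + 2) = D.J 1 := (congrArg D.J (by ring)).trans (D.pJ 1)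
  have j3 : D.J (k + 1 + 3) = D.J 2 := (congrArg D.J (by ring)).trans (D.pJ 2)
  have s2 : D.S (k + 1 + 2) = D.S 1 := (congrArg D.S (by ring)).trans (D.pS 1)
  have yprev : y (D.P 0) = D.J 0 := by
    have := hy.prev
    rwa [p1, j1] at this
  have yown : y (D.P 1) = D.S 1 := by
    have := hy.own
    rwa [p2, s2] at this
  have ynext : y (D.P 2) = D.J 2 := by
    have := hy.next
    rwa [p3, j3] at this
  have hp0 : ∀ g, y g ≠ X 0 g := by
    intro g
    by_cases h0 : g = D.P 0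
    · rw [h0, yprev]
      exact (hX 0).1.prev2.symm
    · by_cases h1 : g = D.P 1
      · rw [h1, yown, (hX 0).1.lay.prev]
        exact D.S0 1
      · by_cases h2 : g = D.P 2
        · rw [h2, ynext, (hX 0).1.lay.own]
          exact (D.S0 2).symm
        · refine (hy2 g ?_ ?_ ?_).2
          · rw [p1]; exact h0
          · rw [p2]; exact h1
          · rw [p3]; exact h2
  refine ⟨fun h => if h = k + 1 then y else X h, ?_, ?_⟩
  · intro h hh
    by_cases e : h = k + 1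
    · simp only [e, if_true]
      exact hy
    · simp only [e, if_false]
      exact (hX h).1.lay
  · rintro h h' hh hh' (rfl | ⟨h1, rfl⟩)
    · have e : h ≠ k + 1 := by omega
      simp only [e, if_false]
      by_cases e' : h + 1 = k + 1
      · have e2 : h = k := by omega
        subst e2
        simp only [if_true]
        exact ⟨hy.prev, (hX h).1.lay.next, hpy⟩
      · simp only [e', if_false]
        exact ⟨(hX (h + 1)).1.lay.prev, (hX h).1.lay.next, (hX h).2⟩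
    · have e : h = k + 1 := by omega
      subst e
      have e0 : (0 : ℕ) ≠ k + 1 := by omega
      simp only [if_true, e0, if_false]
      refine ⟨?_, ?_, hp0⟩
      · rw [p2, j2]
        exact (hX 0).1.lay.prev
      · exact ynext

end Dat

end Pool.Agent.Q124.LC
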